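import Pool.Agent.Y72.Un.CnLin
import Pool.Agent.Y72.Un.All

/-!
# Determinants of Whitehead elements of torsion-free linear groups

Let `Γ` be a torsion-free group with a faithful representation `φ` of dimension `N` over a field
`K`.  Suppose that the characteristic of `K` is positive, or `N ≤ 2`, or for every finitely
generated subgroup `H` of `Γ` and every `u ≠ 1` in `H` with `φ(u)` unipotent the centraliser of `u`
in `H` is commutative or has a homomorphism to `ℤ` which does not vanish at `u`.  For every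
invertible matrix `A` over `ℤΓ` there are a sign `ε` and an element `γ` of `Γ` such that the
determinant of `A` in every finite dimensional representation `ρ` of `Γ` over every field is the
determinant `ε ^ d * det ρ(γ)` of `ε γ`.
-/

set_option autoImplicit false

namespace Pool.Agent.Results.MP_8f66f0_al.AllDeterminants

open Pool.Agent.Y72.Log Pool.Agent.Y72.Dt Pool.Agent.Y72.Un H219.Wh

universe u v w

theorem result {Γ : Type u} [Group Γ] (htf : ∀ g : Γ, ∀ m : ℕ, 0 < m → g ^ m = 1 → g = 1)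
    {K : Type v} [Field K] {N : ℕ} (φ : Γ →* GL (Fin N) K) (hφ : Function.Injective φ)
    (h : (∃ p : ℕ, p.Prime ∧ CharP K p) ∨ N ≤ 2 ∨
      ∀ H : Subgroup Γ, H.FG → ∀ g ∈ H, g ≠ 1 → IsNilpotent ((φ g).val - 1) →
        (∀ x ∈ H, ∀ y ∈ H, x * g = g * x → y * g = g * y → x * y = y * x) ∨
        ∃ f : Γ → ℤ, (∀ x ∈ H, ∀ y ∈ H, x * g = g * x → y * g = g * y →
          f (x * y) = f x + f y) ∧ f g ≠ 0)
    {n : ℕ} (A : (Matrix (Fin n) (Fin n) (MonoidAlgebra ℤ Γ))ˣ) :
    ∃ ε : ℤ, (ε = 1 ∨ ε = -1) ∧ ∃ γ : Γ, ∀ (L : Type w) [Field L] (d : ℕ)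
      (ρ : Γ →* GL (Fin d) L),
      (Matrix.of fun x y : Fin n × Fin d =>
        (A.val x.1 y.1).coeff.sum fun g a => (a : L) * (ρ g).val x.2 y.2).det =
          (ε : L) ^ d * (ρ γ).val.det := by
  obtain ⟨H, hH, hS⟩ := exists_fg A
  obtain ⟨A', hA'⟩ := exists_sub A H hS
  haveI : Group.FG H := (Group.fg_iff_subgroup_fg H).2 hH
  have hn : Cn H := cn_of φ hφ htf h H hH
  refine ⟨DD (trv H ℤ) A'.val, sign_pm A', (gamA A' : H), fun L _ d ρ => ?_⟩
  let ρ' : Γ →* Matrix (Fin d) (Fin d) L := (Units.coeHom _).comp ρ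
  have h1 := all_reps_sign hn A' (ρ'.comp H.subtype)
  have h2 : DD (ρ'.comp H.subtype) A'.val = (Matrix.of fun x y : Fin n × Fin d =>
      (A.val x.1 y.1).coeff.sum fun g a => (a : L) * (ρ g).val x.2 y.2).det := by
    unfold DD
    rw [← blkR_mpU, ← hA']
    congr 1
    ext1 x y
    exact lrG_apply ρ' (A.val x.1 y.1) x.2 y.2
  rw [h2, Int.cast_pow] at h1
  exact h1

end Pool.Agent.Results.MP_8f66f0_al.AllDeterminants
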