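import Pool.Agent.Y75.Th.Fin

set_option autoImplicit false

/-! Whitehead torsion vanishes for every invertible matrix `A` over the integral group ring of an
arbitrary group that is close to its adjoint inverse `(A*)⁻¹`, and the bound is sharp. -/

namespace Pool.Agent.Results.MP_8f66f0_al.CloseToAdjointInverse

open Pool.Agent.Y75.Th

theorem result :
    (∀ (Γ : Type) [Group Γ] (n : ℕ)
      (A : (Matrix (Fin n) (Fin n) (MonoidAlgebra ℤ Γ))ˣ),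
      (((∀ i, ∑ j, ∑ᶠ g : Γ, (((↑A : Matrix (Fin n) (Fin n) (MonoidAlgebra ℤ Γ)) i j).coeff g
            - ((↑A⁻¹ : Matrix (Fin n) (Fin n) (MonoidAlgebra ℤ Γ)) j i).coeff g⁻¹) ^ 2 ≤ 4) ∧
        (∀ j, ∑ i, ∑ᶠ g : Γ, (((↑A : Matrix (Fin n) (Fin n) (MonoidAlgebra ℤ Γ)) i j).coeff g
            - ((↑A⁻¹ : Matrix (Fin n) (Fin n) (MonoidAlgebra ℤ Γ)) j i).coeff g⁻¹) ^ 2 ≤ 3)) ∨
       ((∀ i, ∑ j, ∑ᶠ g : Γ, (((↑A : Matrix (Fin n) (Fin n) (MonoidAlgebra ℤ Γ)) i j).coeff g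
            - ((↑A⁻¹ : Matrix (Fin n) (Fin n) (MonoidAlgebra ℤ Γ)) j i).coeff g⁻¹) ^ 2 ≤ 3) ∧
        (∀ j, ∑ i, ∑ᶠ g : Γ, (((↑A : Matrix (Fin n) (Fin n) (MonoidAlgebra ℤ Γ)) i j).coeff g
            - ((↑A⁻¹ : Matrix (Fin n) (Fin n) (MonoidAlgebra ℤ Γ)) j i).coeff g⁻¹) ^ 2 ≤ 4)) ∨
       (∃ c : ℝ, 0 < c ∧ c < 1 + Real.sqrt 2 ∧
          (∀ x : Fin n → MonoidAlgebra ℝ Γ,
            ∑ j, ∑ᶠ g : Γ, (∑ i, x i * MonoidAlgebra.mapRingHom Γ (Int.castRingHom ℝ)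
              ((↑A : Matrix (Fin n) (Fin n) (MonoidAlgebra ℤ Γ)) i j)).coeff g ^ 2
              ≤ c ^ 2 * ∑ i, ∑ᶠ g : Γ, (x i).coeff g ^ 2) ∧
          (∀ x : Fin n → MonoidAlgebra ℝ Γ,
            ∑ j, ∑ᶠ g : Γ, (∑ i, x i * MonoidAlgebra.mapRingHom Γ (Int.castRingHom ℝ)
              ((↑A⁻¹ : Matrix (Fin n) (Fin n) (MonoidAlgebra ℤ Γ)) i j)).coeff g ^ 2
              ≤ c ^ 2 * ∑ i, ∑ᶠ g : Γ, (x i).coeff g ^ 2))) →
      ∃ (m : ℕ) (g : Γ) (ε : ℤˣ)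
        (C : (Matrix (Fin n ⊕ Fin (m + 1)) (Fin n ⊕ Fin (m + 1)) (MonoidAlgebra ℤ Γ))ˣ),
        C ∈ commutator (Matrix (Fin n ⊕ Fin (m + 1)) (Fin n ⊕ Fin (m + 1))
          (MonoidAlgebra ℤ Γ))ˣ ∧
        Matrix.fromBlocks (↑A : Matrix (Fin n) (Fin n) (MonoidAlgebra ℤ Γ))
            (0 : Matrix (Fin n) (Fin (m + 1)) (MonoidAlgebra ℤ Γ))
            (0 : Matrix (Fin (m + 1)) (Fin n) (MonoidAlgebra ℤ Γ))
            (1 : Matrix (Fin (m + 1)) (Fin (m + 1)) (MonoidAlgebra ℤ Γ)) =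
          Matrix.diagonal (fun i : Fin n ⊕ Fin (m + 1) =>
              if i = Sum.inr (0 : Fin (m + 1)) then
                (MonoidAlgebra.single g ((ε : ℤ)) : MonoidAlgebra ℤ Γ) else 1) *
            (↑C : Matrix (Fin n ⊕ Fin (m + 1)) (Fin n ⊕ Fin (m + 1)) (MonoidAlgebra ℤ Γ))) ∧
    (∃ A : (Matrix (Fin 1) (Fin 1) (MonoidAlgebra ℤ (Multiplicative (ZMod 5))))ˣ,
      (∀ i, ∑ j, ∑ᶠ g : (Multiplicative (ZMod 5)), (((↑A : Matrix (Fin 1) (Fin 1) (MonoidAlgebra ℤ (Multiplicative (ZMod 5)))) i j).coeff g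
            - ((↑A⁻¹ : Matrix (Fin 1) (Fin 1) (MonoidAlgebra ℤ (Multiplicative (ZMod 5)))) j i).coeff g⁻¹) ^ 2 ≤ 4) ∧
      (∀ j, ∑ i, ∑ᶠ g : (Multiplicative (ZMod 5)), (((↑A : Matrix (Fin 1) (Fin 1) (MonoidAlgebra ℤ (Multiplicative (ZMod 5)))) i j).coeff g
            - ((↑A⁻¹ : Matrix (Fin 1) (Fin 1) (MonoidAlgebra ℤ (Multiplicative (ZMod 5)))) j i).coeff g⁻¹) ^ 2 ≤ 4) ∧
      ¬ ∃ (m : ℕ) (g : (Multiplicative (ZMod 5))) (ε : ℤˣ)
        (C : (Matrix (Fin 1 ⊕ Fin (m + 1)) (Fin 1 ⊕ Fin (m + 1)) (MonoidAlgebra ℤ (Multiplicative (ZMod 5))))ˣ),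
        C ∈ commutator (Matrix (Fin 1 ⊕ Fin (m + 1)) (Fin 1 ⊕ Fin (m + 1))
          (MonoidAlgebra ℤ (Multiplicative (ZMod 5))))ˣ ∧
        Matrix.fromBlocks (↑A : Matrix (Fin 1) (Fin 1) (MonoidAlgebra ℤ (Multiplicative (ZMod 5))))
            (0 : Matrix (Fin 1) (Fin (m + 1)) (MonoidAlgebra ℤ (Multiplicative (ZMod 5))))
            (0 : Matrix (Fin (m + 1)) (Fin 1) (MonoidAlgebra ℤ (Multiplicative (ZMod 5))))
            (1 : Matrix (Fin (m + 1)) (Fin (m + 1)) (MonoidAlgebra ℤ (Multiplicative (ZMod 5)))) =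
          Matrix.diagonal (fun i : Fin 1 ⊕ Fin (m + 1) =>
              if i = Sum.inr (0 : Fin (m + 1)) then
                (MonoidAlgebra.single g ((ε : ℤ)) : MonoidAlgebra ℤ (Multiplicative (ZMod 5))) else 1) *
            (↑C : Matrix (Fin 1 ⊕ Fin (m + 1)) (Fin 1 ⊕ Fin (m + 1)) (MonoidAlgebra ℤ (Multiplicative (ZMod 5))))) := by
  refine ⟨?_, um, ?_, ?_, um_nontrivial⟩
  · intro Γ _ n A h
    apply TH57.Thr.TT_frozen n A
    rcases h with ⟨h1, h2⟩ | ⟨h1, h2⟩ | ⟨c, h0, h1, h2, h3⟩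
    · refine TT_of_bounds A _ rfl (fun i => ?_) (fun j => ?_)
      · have := h1 i
        simp only [finsum_nsq] at this
        exact this
      · have := h2 j
        simp only [finsum_nsq] at this
        exact this
    · refine TT_of_bounds' A _ rfl (fun i => ?_) (fun j => ?_)
      · have := h1 i
        simp only [finsum_nsq] at this
        exact this
      · have := h2 j
        simp only [finsum_nsq] at this
        exact this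
    · exact TT_of_norms A c h0 h1 (normLE_fin n _ c h2) (normLE_fin n _ c h3)
  · intro i
    rw [Fintype.sum_unique]
    exact le_of_eq um_bound
  · intro i
    rw [Fintype.sum_unique]
    exact le_of_eq um_bound

end Pool.Agent.Results.MP_8f66f0_al.CloseToAdjointInverse
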