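import Pool.Agent.Y72.Un.Tr

/-!
# The Dennis trace of invertible matrices over group rings of torsion-free linear groups

Let `Γ` be a torsion-free group with a faithful representation `φ` of dimension `N` over a field
`K`.  Suppose that the characteristic of `K` is positive, or `N ≤ 2`, or for every finitely
generated subgroup `H` of `Γ` and every `u ≠ 1` in `H` with `φ(u)` unipotent the centraliser of `u`
in `H` is commutative or has a homomorphism to `ℤ` which does not vanish at `u`.  For every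
invertible matrix `A` over `ℤΓ` there is an element `γ` of `Γ` such that the difference of the
Dennis traces of `A` and `γ` in the Hochschild homology group `HH₁(ℤΓ)` is a torsion element which
is divisible by all positive integers.
-/

set_option autoImplicit false

namespace Pool.Agent.Results.MP_8f66f0_al.DennisTrace

open Pool.Agent.Y72.Log Pool.Agent.Y72.Dt Pool.Agent.Y72.Un H219.Wh

universe u v w

theorem result {Γ : Type u} [Group Γ] (htf : ∀ g : Γ, ∀ m : ℕ, 0 < m → g ^ m = 1 → g = 1)
    {K : Type v} [Field K] {N : ℕ} (φ : Γ →* GL (Fin N) K) (hφ : Function.Injective φ)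
    (h : (∃ p : ℕ, p.Prime ∧ CharP K p) ∨ N ≤ 2 ∨
      ∀ H : Subgroup Γ, H.FG → ∀ g ∈ H, g ≠ 1 → IsNilpotent ((φ g).val - 1) →
        (∀ x ∈ H, ∀ y ∈ H, x * g = g * x → y * g = g * y → x * y = y * x) ∨
        ∃ f : Γ → ℤ, (∀ x ∈ H, ∀ y ∈ H, x * g = g * x → y * g = g * y →
          f (x * y) = f x + f y) ∧ f g ≠ 0)
    {n : ℕ} (A : (Matrix (Fin n) (Fin n) (MonoidAlgebra ℤ Γ))ˣ) :
    ∃ γ : Γ, ∃ k : ℕ, 0 < k ∧ ∀ (M : Type w) [AddCommGroup M] (f : Γ → Γ → M),
      (∀ x y z : Γ, f (x * y) z - f x (y * z) + f (z * x) y = 0) →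
      k • ((∑ i, ∑ j, ((A⁻¹).val i j).coeff.sum fun g b =>
          (A.val j i).coeff.sum fun h a => (b * a) • f g h) - f γ⁻¹ γ) = 0 ∧
      ∀ m : ℕ, 0 < m → ∃ y : M,
        (∑ i, ∑ j, ((A⁻¹).val i j).coeff.sum fun g b =>
          (A.val j i).coeff.sum fun h a => (b * a) • f g h) - f γ⁻¹ γ = m • y :=
  trace_fg (cn_of φ hφ htf h) A

end Pool.Agent.Results.MP_8f66f0_al.DennisTrace
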