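import Pool.Agent.Y35.KC.TwoTerm

set_option autoImplicit false

/-! The Whitehead torsion of finite contractible based complexes over an integral group ring whose
boundary operator (or a contraction of square zero) is small: of `ℓ²`-operator norm less than
`3 / √2` for torsion-free groups, or of `ℓ¹` norm at most two on all rows or on all columns in each
degree, for arbitrary groups. -/

namespace Pool.Agent.Results.MP_8f66f0_al.TorsionOfComplexes

open TH57.Thr TH6.CX Pool.Agent.Y35.KC.TTm

/-- the square matrix `x` over `ℤΓ`, stabilised by an identity block, is `± g` on one diagonal entry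
times a product of commutators of invertible matrices (the form of the frozen statement) -/
def ZeroInWh {Γ : Type} [Group Γ] {κ : Type} [Fintype κ] [DecidableEq κ]
    (x : Matrix κ κ (MonoidAlgebra ℤ Γ)) : Prop :=
  ∃ (m : ℕ) (g : Γ) (ε : ℤˣ)
    (C : (Matrix (κ ⊕ Fin (m + 1)) (κ ⊕ Fin (m + 1)) (MonoidAlgebra ℤ Γ))ˣ),
    C ∈ commutator (Matrix (κ ⊕ Fin (m + 1)) (κ ⊕ Fin (m + 1)) (MonoidAlgebra ℤ Γ))ˣ ∧
    Matrix.fromBlocks x 0 0 (1 : Matrix (Fin (m + 1)) (Fin (m + 1)) (MonoidAlgebra ℤ Γ)) =
      Matrix.diagonal (fun i : κ ⊕ Fin (m + 1) =>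
          if i = Sum.inr (0 : Fin (m + 1)) then
            (MonoidAlgebra.single g ((ε : ℤ)) : MonoidAlgebra ℤ Γ) else 1) *
        (↑C : Matrix (κ ⊕ Fin (m + 1)) (κ ⊕ Fin (m + 1)) (MonoidAlgebra ℤ Γ))

/-- the boundary operator, or some contraction of square zero, has `ℓ²`-operator norm less than
`3 / √2` -/
def ThinComplex {Γ : Type} [Group Γ] {ι : Type} [Fintype ι] [DecidableEq ι] (deg : ι → ℤ)
    (d : Matrix ι ι (MonoidAlgebra ℤ Γ)) : Prop :=
  ∃ c : ℝ, 0 < c ∧ c ^ 2 < 9 / 2 ∧
    (NormLE d c ∨ ∃ t, IsContraction deg d t ∧ t * t = 0 ∧ NormLE t c)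

/-- the boundary operator, or some contraction of square zero, has in each degree all rows or all
columns of `ℓ¹` norm at most two -/
def TwoTermComplex {Γ : Type} [Group Γ] {ι : Type} [Fintype ι] [DecidableEq ι] (deg : ι → ℤ)
    (d : Matrix ι ι (MonoidAlgebra ℤ Γ)) : Prop :=
  TwoTerm deg d ∨ ∃ t, IsContraction deg d t ∧ t * t = 0 ∧ TwoTermUp deg t

/-- Let `d` be the boundary operator of a finite complex of based free `ℤΓ`-modules with a
contraction `s`. Suppose that `Γ` is torsion-free and `d` (or a contraction of square zero) has norm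
less than `3 / √2`; or that, for an arbitrary group `Γ`, in each degree all rows or all columns of
`d` (or of a contraction of square zero) have `ℓ¹` norm at most two. Then the Whitehead torsion of
the complex is zero: there are as many basis elements of odd as of even degree, and for every
bijection `e` between them the matrix of `d + s` from odd to even degrees represents zero in the
Whitehead group of `Γ`. -/
theorem result (Γ : Type) [Group Γ] (ι : Type) [Fintype ι] [DecidableEq ι] (deg : ι → ℤ)
    (d s : Matrix ι ι (MonoidAlgebra ℤ Γ)) (hd : IsBoundary deg d) (hs : IsContraction deg d s)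
    (h : ((∀ g : Γ, ∀ k : ℕ, 0 < k → g ^ k = 1 → g = 1) ∧ ThinComplex deg d) ∨
      TwoTermComplex deg d) :
    Nonempty ({i // Odd (deg i)} ≃ {i // Even (deg i)}) ∧
    ∀ e : {i // Odd (deg i)} ≃ {i // Even (deg i)}, ZeroInWh (torsionMatrix deg d s e) := by
  rcases h with ⟨htf, c, hc0, hc, hthin⟩ | h
  · exact main htf deg d hd c hc0 hc hthin s hs
  · have hd' : IsBd deg d := ⟨hd.degree, hd.sq⟩
    have hs' : IsCt deg d s := ⟨hs.degree, hs.eq⟩
    refine ⟨card_eq deg d s hd' hs', fun e => ?_⟩
    obtain ⟨x, hx, _⟩ := tor_unit hd' hs' e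
    have hTT : TT (TU Γ) x := by
      rcases h with h | ⟨t, ht, htt, h⟩
      · exact TT_two deg d s hd' hs' h e x hx
      · have ht' : IsCt deg d t := ⟨ht.degree, ht.eq⟩
        obtain ⟨y, hy, _⟩ := tor_unit hd' ht' e
        exact TT_indep (TU Γ) hd' hs' ht' e x y hx hy
          (TT_two_up deg d t hd' ht' htt h e y hy)
    obtain ⟨m, g, ε, C, hC, h⟩ := TT_explicit x hTT
    refine ⟨m, g, ε, C, hC, ?_⟩
    rw [← h, hx]
    rfl

end Pool.Agent.Results.MP_8f66f0_al.TorsionOfComplexes
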